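import Pool.Agent.Helper99.WP.GoalsK

/-!
# WP, packet HIT
-/

open Finset

namespace Pool.Agent.Helper8.WP

open Pool.Agent.Helper99.WP Pool.Agent.Helper99.ERW

theorem HIT (hMXP : MXP_stmt) (hGEX : GEX_stmt) (hGCM : GCM_stmt) (hQQQ : QQQ_stmt)
    (hEXT : EXT_stmt) (hOCC : OCC_stmt) : HIT_stmt := by
  intro d κ hκ
  obtain ⟨K0, c0, γ, hc0, hγ, hocc⟩ := hOCC d κ hκ
  obtain ⟨q1, q2, q3, q4, q5, q6⟩ := hQQQ d
  have hC : (0 : ℝ) < ((d : ℝ) + 1) * ((K0 : ℝ) + 2) ^ 2 := by positivity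
  refine ⟨K0 + 1, c0 / (((d : ℝ) + 1) * ((K0 : ℝ) + 2) ^ 2), γ, div_pos hc0 hC, hγ, by omega, ?_⟩
  set C : ℝ := ((d : ℝ) + 1) * ((K0 : ℝ) + 2) ^ 2 with hCdef
  intro p hp r y u A t ht hA hlap hu hAt z hz
  set D := Q ((K0 + 1) * (r + 1)) y with hD
  have hgcm := hGCM d κ p hκ hp
  have hgex := hGEX d κ p hκ hp D (ind A)
  set v := Gr p D (ind A) with hv
  have hr1 : (0 : ℝ) < (r : ℝ) + 1 := by positivity
  -- upper bound for v
  have hind : ∀ x, ind A x ≤ 1 := by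
    intro x
    unfold ind
    split_ifs <;> norm_num
  have hind0 : ∀ x, 0 ≤ ind A x := by
    intro x
    unfold ind
    split_ifs <;> norm_num
  have hvC : ∀ x, v x ≤ C * ((r : ℝ) + 1) ^ 2 := by
    intro x
    have h1 : v x ≤ Gr p D (fun _ => 1) x := (hgcm D).2.2.1 _ _ (fun x _ => hind x) x
    have h2 := (hEXT d κ p hκ hp ((K0 + 1) * (r + 1)) y).1 D (le_refl _) x
    have h3 : (((K0 + 1) * (r + 1) : ℕ) : ℝ) + 1 ≤ ((K0 : ℝ) + 2) * ((r : ℝ) + 1) := by
      push_cast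
      nlinarith [Nat.cast_nonneg (α := ℝ) K0, Nat.cast_nonneg (α := ℝ) r]
    have h4 : ((((K0 + 1) * (r + 1) : ℕ) : ℝ) + 1) ^ 2 ≤ (((K0 : ℝ) + 2) * ((r : ℝ) + 1)) ^ 2 := by
      apply pow_le_pow_left₀ (by positivity) h3
    calc v x ≤ d * ((((K0 + 1) * (r + 1) : ℕ) : ℝ) + 1) ^ 2 := h1.trans h2
      _ ≤ ((d : ℝ) + 1) * (((K0 : ℝ) + 2) * ((r : ℝ) + 1)) ^ 2 := by
          apply mul_le_mul (by linarith) h4 (by positivity) (by positivity)
      _ = C * ((r : ℝ) + 1) ^ 2 := by rw [hCdef]; ring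
  set α : ℝ := t / (C * ((r : ℝ) + 1) ^ 2) with hα
  have hα0 : 0 ≤ α := by positivity
  have hαv : ∀ x, α * v x ≤ t := by
    intro x
    have h1 : α * v x ≤ α * (C * ((r : ℝ) + 1) ^ 2) := mul_le_mul_of_nonneg_left (hvC x) hα0
    have h2 : α * (C * ((r : ℝ) + 1) ^ 2) = t := by
      rw [hα]
      field_simp
    linarith
  have hlapw : ∀ x, lap p (fun z => α * v z - u z) x = α * lap p v x - lap p u x := by
    intro x
    unfold lap
    rw [Finset.mul_sum, ← Finset.sum_sub_distrib]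
    apply Finset.sum_congr rfl
    intro l _
    ring
  have hr : r ≤ (K0 + 1) * (r + 1) := by nlinarith
  have hsub : Q r y ⊆ D := q6 r _ y hr
  -- maximum principle
  have hmain : ∀ x ∈ D \ A, α * v x - u x ≤ 0 := by
    apply hMXP d κ p hκ hp (D \ A) (fun z => α * v z - u z)
    · intro x hx
      rw [Finset.mem_sdiff] at hx
      rw [hlapw, hgex.1.2 x hx.1]
      have : ind A x = 0 := by
        unfold ind
        rw [if_neg hx.2]
      rw [this]
      have := hlap x hx.1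
      linarith
    · have key : ∀ z', z' ∈ Q ((K0 + 1) * (r + 1) + 1) y → z' ∉ D \ A → α * v z' - u z' ≤ 0 := by
        intro z' h1 h2
        by_cases h3 : z' ∈ A
        · have := hAt z' h3
          have := hαv z'
          linarith
        · have h4 : z' ∉ D := fun h => h2 (Finset.mem_sdiff.2 ⟨h, h3⟩)
          rw [hgex.1.1 z' h4]
          have := hu z' h1
          linarith
      intro x hx l
      rw [Finset.mem_sdiff] at hx
      have h5 := q3 _ y x hx.1 l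
      exact ⟨key _ h5.1, key _ h5.2⟩
  have hfin : α * v z ≤ u z := by
    by_cases hzA : z ∈ A
    · have := hAt z hzA
      have := hαv z
      linarith
    · have := hmain z (Finset.mem_sdiff.2 ⟨hsub hz, hzA⟩)
      linarith
  -- lower bound for v
  have hvl : c0 * ((A.card : ℝ) / (Q r y).card) ^ γ * ((r : ℝ) + 1) ^ 2 ≤ v z := by
    refine (hocc p hp r y A hA z hz).trans ?_
    apply (hgcm (Q (K0 * (r + 1)) y)).2.2.2.2.2.1 D
    · apply q6
      nlinarith
    · intro x _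
      exact hind0 x
  refine le_trans ?_ hfin
  have h6 : α * (c0 * ((A.card : ℝ) / (Q r y).card) ^ γ * ((r : ℝ) + 1) ^ 2) ≤ α * v z :=
    mul_le_mul_of_nonneg_left hvl hα0
  refine le_trans (le_of_eq ?_) h6
  rw [hα]
  field_simp

end Pool.Agent.Helper8.WP
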